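import Pool.Agent.Helper80_Pack.Base

/-! # E3: the lever inequality (helper80) -/

namespace Pool.Agent.Helper80_Pack

open Pool.Agent.Helper2_Pack

theorem sg_sq (σ : Bool) : ((sg σ : ℤ) : ℝ) ^ 2 = 1 := by
  cases σ <;> simp [sg]

theorem sg_abs (σ : Bool) : |((sg σ : ℤ) : ℝ)| = 1 := by
  cases σ <;> simp [sg]

/-- bounds for the pivot -/
theorem piv_bds {q : ℝ} (hq : 0 < q) (σ : Bool) :
    q / 2 ≤ piv q σ ∧ piv q σ ≤ 2 * q := by
  unfold piv
  cases σ <;> simp only [sg] <;> push_cast <;> constructor <;> linarith only [hq]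

theorem port_le_roof (q : ℝ) (σ : Bool) (p x : ℝ) : port q σ p x ≤ roof q σ x := min_le_left _ _

/-- the roof is low -/
theorem roof_le {q : ℝ} (hq : 0 < q) (σ : Bool) {x : ℝ} (h1 : -1 ≤ x) (h2 : x ≤ 2) :
    roof q σ x ≤ 4 * q := by
  unfold roof
  have hp := (piv_bds hq σ).2
  have h3 : |x - 20 / 32| ≤ 2 := by
    rw [abs_le]
    constructor <;> linarith
  have h0 := abs_nonneg (x - 20 / 32)
  cases σ <;> simp only [sg] <;> push_cast <;> nlinarith only [hq, hp, h0, h3]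

/-- far from its port a port dent is invisible -/
theorem port_far {q : ℝ} (h : Qs q) (σ : Bool) {p x : ℝ} (hp : p = 10 / 32 ∨ p = 30 / 32)
    (hx : 1 / 8 ≤ |x - p|) : port q σ p x ≤ 0 := by
  have q0 := h.pos
  have hq1 := h.q1
  have hq2 := h.q2
  have hq3 := h.q3
  have q3p := h.q3p
  norm_num at hq1 hq2 hq3
  have hp2 : 0 ≤ p ∧ p ≤ 1 := by
    rcases hp with h | h <;> rw [h] <;> norm_num
  unfold port
  rcases le_total x p with h1 | h1
  · rw [abs_of_nonpos (by linarith only [h1])] at hx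
    have := roof_le q0 σ (x := p - 3 * q ^ 3) (by linarith) (by linarith)
    exact (min_le_right _ _).trans ((min_le_left _ _).trans (by linarith only [hx, hq1, hq2, hq3, this]))
  · rw [abs_of_nonneg (by linarith only [h1])] at hx
    have := roof_le q0 σ (x := p + 3 * q ^ 3) (by linarith only [q3p, hp2]) (by linarith)
    exact (min_le_right _ _).trans ((min_le_right _ _).trans (by linarith))

theorem lever_tents_le {q : ℝ} (h : Qs q) (σ : Bool) {x : ℝ} (h1 : 1 / 32 ≤ |x - 13 / 32|)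
    (h2 : 1 / 32 ≤ |x - 26 / 32|) :
    tents (q ^ 3) (if σ then [] else [(13 / 32, q + 2 * q ^ 3), (26 / 32, q + 2 * q ^ 3)]) x ≤ q ^ 3 := by
  have q0 := h.pos
  have hq1 := h.q1
  have hq2 := h.q2
  have hq3 := h.q3
  norm_num at hq1 hq2 hq3
  apply tents_le le_rfl
  intro d hd
  cases σ
  · simp only [Bool.false_eq_true, if_false, List.mem_cons, List.not_mem_nil, or_false] at hd
    rcases hd with hd | hd <;> rw [hd] <;> simp only <;> linarith only [h1, hq1, hq2, hq3, h2]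
  · simp at hd

/-- the lever is high away from the slit -/
theorem lever_hi_ge {q : ℝ} (h : Qs q) (σ : Bool) {x : ℝ} (h1 : 1 / 32 ≤ x) (h2 : x ≤ 31 / 32)
    (h3 : 1 / 32 ≤ |x - 20 / 32|) : 1 / 2 ≤ (leverSh q σ).hi x := by
  have q0 := h.pos
  have hq1 := h.q1
  have hq2 := h.q2
  have hq3 := h.q3
  have q3p := h.q3p
  norm_num at hq1 hq2 hq3
  show 1 / 2 ≤ min (1 - cham q 0 x) (piv q σ + (1 - piv q σ) * |x - 20 / 32| / (2 * q ^ 3))
  rw [cham_zero (by linarith) (by linarith only [h2, hq1, hq2, hq3])]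
  apply le_min (by norm_num)
  obtain ⟨hp1, hp2⟩ := piv_bds q0 σ
  have h5 : 1 / 2 ≤ (1 - piv q σ) * |x - 20 / 32| / (2 * q ^ 3) := by
    rw [le_div_iff₀ (by positivity)]
    have : (1 / 2 : ℝ) * (1 / 32) ≤ (1 - piv q σ) * |x - 20 / 32| :=
      mul_le_mul (by linarith only [hq1, hp2]) h3 (by norm_num) (by linarith only [hq1, hp2])
    linarith only [hq1, hq2, hq3, this]
  linarith only [q3p, hq2, hq3, hp1, h5]

/-- not in the interior of a lever -/
theorem lever_int (hS1 : S1Stmt) (hS3 : S3Stmt) {q : ℝ} (h : Qs q) (σ : Bool) {z : ℂ}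
    (hz : z ∉ interior ((Shp.lever σ).reg q)) (h1 : 0 < z.re) (h2 : z.re < 1) :
    (z.im < (leverSh q σ).hi z.re → z.im ≤ (leverSh q σ).lo z.re) ∧
    ((leverSh q σ).lo z.re < z.im → (leverSh q σ).hi z.re ≤ z.im) := by
  have hq : q ≤ 1 / 1000 := h.q1.trans (by norm_num)
  obtain ⟨hg, -, -⟩ := hS3 q (.lever σ) h.pos hq
  have hi := (hS1 _ hg).1
  have e : (Shp.lever σ).reg q = ((Shp.lever σ).sh q).reg := rfl
  rw [e, hi] at hz
  have hz' : ¬ ((0 : ℝ) < z.re ∧ z.re < 1 ∧ (leverSh q σ).lo z.re < z.im ∧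
    z.im < (leverSh q σ).hi z.re) := hz
  constructor
  · intro h3
    by_contra h4
    exact hz' ⟨h1, h2, not_le.1 h4, h3⟩
  · intro h3
    by_contra h4
    exact hz' ⟨h1, h2, h3, not_le.1 h4⟩

/-- the apex of a port bump is below the roof -/
theorem port_ineq (hS1 : S1Stmt) (hS2 : S2Stmt) (hS3 : S3Stmt) {q Y P : ℝ} {σ : Bool} {g : Motion}
    (h : Qs q) (hY : |Y| ≤ q ^ 2) (hu : ‖g.u - 1‖ ≤ 2 ^ 12 * q ^ 2) (hv : ‖g.v‖ ≤ 2 ^ 12 * q ^ 2)
    (hP : P = 10 / 32 ∨ P = 30 / 32)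
    (h1 : (⟨P, q + Y⟩ : ℂ) ∉ interior (img q g (.lever σ))) :
    g.u.re * (q + Y - g.v.im) - g.u.im * (P - g.v.re) ≤
      roof q σ (g.u.re * (P - g.v.re) + g.u.im * (q + Y - g.v.im)) ∧
    |g.u.re * (P - g.v.re) + g.u.im * (q + Y - g.v.im) - P| ≤ 1 / 64 := by
  have q0 := h.pos
  have hq1 := h.q1
  have hq2 := h.q2
  have hq3 := h.q3
  have q3p := h.q3p
  have q2p := h.q2p
  norm_num at hq1 hq2 hq3
  obtain ⟨hc, hs⟩ := near_coords hu
  have hc1 := re_le_one g
  have hv1 : |g.v.re| ≤ 2 ^ 12 * q ^ 2 := (Complex.abs_re_le_norm _).trans hv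
  have hv2 : |g.v.im| ≤ 2 ^ 12 * q ^ 2 := (Complex.abs_im_le_norm _).trans hv
  have hs' := hs
  rw [abs_le] at hc hs hv1 hv2 hY
  norm_num at hc hs hv1 hv2 hs'
  have hP2 : 10 / 32 ≤ P ∧ P ≤ 30 / 32 := by
    rcases hP with h | h <;> rw [h] <;> norm_num
  have hz := img_int hS2 g (.lever σ) h1
  set b := (starRingEnd ℂ g.u) * ((⟨P, q + Y⟩ : ℂ) - g.v) with hb
  have hbre : b.re = g.u.re * (P - g.v.re) + g.u.im * (q + Y - g.v.im) := by
    rw [hb, conj_re]
    simp only [Complex.sub_re, Complex.sub_im]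
  have hbim : b.im = g.u.re * (q + Y - g.v.im) - g.u.im * (P - g.v.re) := by
    rw [hb, conj_im]
    simp only [Complex.sub_re, Complex.sub_im]
  have w1 : |P - g.v.re| ≤ 1 := by
    rw [abs_le]
    constructor <;> linarith only [hq1, hq2, hv1, hP2]
  have w2 : |q + Y - g.v.im| ≤ 1 / 1000 := by
    rw [abs_le]
    constructor <;> linarith only [hY, hq2, hv2, hq1]
  have s1 : |g.u.im * (P - g.v.re)| ≤ 4096 * q ^ 2 := by
    rw [abs_mul]
    calc |g.u.im| * |P - g.v.re| ≤ (4096 * q ^ 2) * 1 :=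
          mul_le_mul hs' w1 (abs_nonneg _) (by positivity)
      _ = _ := mul_one _
  have s2 : |g.u.im * (q + Y - g.v.im)| ≤ 4096 * q ^ 2 := by
    rw [abs_mul]
    calc |g.u.im| * |q + Y - g.v.im| ≤ (4096 * q ^ 2) * 1 :=
          mul_le_mul hs' (w2.trans (by norm_num)) (abs_nonneg _) (by positivity)
      _ = _ := mul_one _
  have s3 : |(1 - g.u.re) * (P - g.v.re)| ≤ 4096 * q ^ 2 := by
    rw [abs_mul, abs_of_nonneg (by linarith only [hc1] : 0 ≤ 1 - g.u.re)]
    calc (1 - g.u.re) * |P - g.v.re| ≤ (4096 * q ^ 2) * 1 :=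
          mul_le_mul (by linarith only [hc]) w1 (abs_nonneg _) (by positivity)
      _ = _ := mul_one _
  have s4 : |(1 - g.u.re) * (q + Y - g.v.im)| ≤ 4096 * q ^ 2 := by
    rw [abs_mul, abs_of_nonneg (by linarith only [hc1] : 0 ≤ 1 - g.u.re)]
    calc (1 - g.u.re) * |q + Y - g.v.im| ≤ (4096 * q ^ 2) * 1 :=
          mul_le_mul (by linarith only [hc]) (w2.trans (by norm_num)) (abs_nonneg _) (by positivity)
      _ = _ := mul_one _
  rw [abs_le] at s1 s2 s3 s4
  have b1 : |b.re - P| ≤ 1 / 64 := by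
    rw [hbre, abs_le]
    constructor <;> linarith only [hq1, hq2, hv1, s2, s3]
  have b3 : q ^ 3 < b.im := by
    rw [hbim]
    linarith only [hY, q3p, hq2, hq3, hv2, s1, s4]
  have b4 : b.im < 1 / 2 := by
    rw [hbim]
    linarith only [hY, hq1, hq2, hv2, s1, s4]
  have hb1 := abs_le.1 b1
  have hti := (lever_int hS1 hS3 h σ hz (by linarith only [hq1, hq2, hv1, hP2, hbre, s2, s3]) (by linarith only [hq1, hq2, hv1, hP2, hbre, s2, s3])).1
  have h20 : 1 / 32 ≤ |b.re - 20 / 32| := by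
    rcases hP with hp | hp
    · rw [hp] at hb1
      rw [abs_of_nonpos (by linarith only [hb1])]
      linarith only [hb1]
    · rw [hp] at hb1
      rw [abs_of_nonneg (by linarith only [hq1, hq2, hv1, hbre, s2, s3, hp])]
      linarith only [hq1, hq2, hv1, hbre, s2, s3, hp]
  have h13 : 1 / 32 ≤ |b.re - 13 / 32| := by
    rcases hP with hp | hp
    · rw [hp] at hb1
      rw [abs_of_nonpos (by linarith only [hb1])]
      linarith only [hb1]
    · rw [hp] at hb1
      rw [abs_of_nonneg (by linarith only [hq1, hq2, hv1, hbre, s2, s3, hp])]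
      linarith only [hq1, hq2, hv1, hbre, s2, s3, hp]
  have h26 : 1 / 32 ≤ |b.re - 26 / 32| := by
    rcases hP with hp | hp
    · rw [hp] at hb1
      rw [abs_of_nonpos (by linarith only [hb1])]
      linarith only [hb1]
    · rw [hp] at hb1
      rw [abs_of_nonneg (by linarith only [hq1, hq2, hv1, hbre, s2, s3, hp])]
      linarith only [hq1, hq2, hv1, hbre, s2, s3, hp]
  have h3 : b.im < (leverSh q σ).hi b.re :=
    b4.trans_le (lever_hi_ge h σ (by linarith only [hq1, hq2, hv1, hP2, hbre, s2, s3]) (by linarith only [hq1, hq2, hv1, hP2, hbre, s2, s3]) h20)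
  have h4 := hti h3
  have h5 : (leverSh q σ).lo b.re ≤ max (q ^ 3) (roof q σ b.re) := by
    show max (max (cham q 0 b.re)
      (tents (q ^ 3) (if σ then [] else [(13 / 32, q + 2 * q ^ 3), (26 / 32, q + 2 * q ^ 3)]) b.re))
      (max (port q σ (10 / 32) b.re) (port q σ (30 / 32) b.re)) ≤ _
    rw [cham_zero (by linarith only [hq1, hq2, hq3, hv1, hP2, hbre, s2, s3]) (by linarith only [hq1, hq2, hq3, hv1, hP2, hbre, s2, s3])]
    apply max_le
    · apply max_le
      · exact q3p.le.trans (le_max_left _ _)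
      · exact (lever_tents_le h σ h13 h26).trans (le_max_left _ _)
    · exact max_le ((port_le_roof _ _ _ _).trans (le_max_right _ _))
        ((port_le_roof _ _ _ _).trans (le_max_right _ _))
  have h6 : b.im ≤ roof q σ b.re := by
    rcases le_max_iff.1 (h4.trans h5) with h7 | h7
    · exact absurd b3 (not_lt.2 h7)
    · exact h7
  rw [← hbre, ← hbim]
  exact ⟨h6, b1⟩

/-- the tip of the spike is in the slit -/
theorem spike_ineq (hS1 : S1Stmt) (hS2 : S2Stmt) (hS3 : S3Stmt) {q : ℝ} {σ : Bool} {g : Motion}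
    (h : Qs q) (hu : ‖g.u - 1‖ ≤ 2 ^ 12 * q ^ 2) (hv : ‖g.v‖ ≤ 2 ^ 12 * q ^ 2)
    (h1 : (⟨20 / 32, piv q σ⟩ : ℂ) ∉ interior (img q g (.lever σ))) :
    q * |g.u.re * (20 / 32 - g.v.re) + g.u.im * (piv q σ - g.v.im) - 20 / 32| ≤
      g.u.re * (piv q σ - g.v.im) - g.u.im * (20 / 32 - g.v.re) - piv q σ := by
  have q0 := h.pos
  have hq1 := h.q1
  have hq2 := h.q2
  have hq3 := h.q3
  have q3p := h.q3p
  have q2p := h.q2p
  norm_num at hq1 hq2 hq3
  obtain ⟨hp1, hp2⟩ := piv_bds q0 σ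
  obtain ⟨hc, hs⟩ := near_coords hu
  have hc1 := re_le_one g
  have hv1 : |g.v.re| ≤ 2 ^ 12 * q ^ 2 := (Complex.abs_re_le_norm _).trans hv
  have hv2 : |g.v.im| ≤ 2 ^ 12 * q ^ 2 := (Complex.abs_im_le_norm _).trans hv
  have hs' := hs
  rw [abs_le] at hc hs hv1 hv2
  norm_num at hc hs hv1 hv2 hs'
  have hz := img_int hS2 g (.lever σ) h1
  set b := (starRingEnd ℂ g.u) * ((⟨20 / 32, piv q σ⟩ : ℂ) - g.v) with hb
  have hbre : b.re = g.u.re * (20 / 32 - g.v.re) + g.u.im * (piv q σ - g.v.im) := by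
    rw [hb, conj_re]
    simp only [Complex.sub_re, Complex.sub_im]
  have hbim : b.im = g.u.re * (piv q σ - g.v.im) - g.u.im * (20 / 32 - g.v.re) := by
    rw [hb, conj_im]
    simp only [Complex.sub_re, Complex.sub_im]
  have w1 : |20 / 32 - g.v.re| ≤ 1 := by
    rw [abs_le]
    constructor <;> linarith only [hq1, hq2, hv1]
  have w2 : |piv q σ - g.v.im| ≤ 1 / 1000 := by
    rw [abs_le]
    constructor <;> linarith only [hq2, hp1, hv2, hq1, hp2]
  have s1 : |g.u.im * (20 / 32 - g.v.re)| ≤ 4096 * q ^ 2 := by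
    rw [abs_mul]
    calc |g.u.im| * |20 / 32 - g.v.re| ≤ (4096 * q ^ 2) * 1 :=
          mul_le_mul hs' w1 (abs_nonneg _) (by positivity)
      _ = _ := mul_one _
  have s2 : |g.u.im * (piv q σ - g.v.im)| ≤ 4096 * q ^ 2 := by
    rw [abs_mul]
    calc |g.u.im| * |piv q σ - g.v.im| ≤ (4096 * q ^ 2) * 1 :=
          mul_le_mul hs' (w2.trans (by norm_num)) (abs_nonneg _) (by positivity)
      _ = _ := mul_one _
  have s3 : |(1 - g.u.re) * (20 / 32 - g.v.re)| ≤ 4096 * q ^ 2 := by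
    rw [abs_mul, abs_of_nonneg (by linarith only [hc1] : 0 ≤ 1 - g.u.re)]
    calc (1 - g.u.re) * |20 / 32 - g.v.re| ≤ (4096 * q ^ 2) * 1 :=
          mul_le_mul (by linarith only [hc]) w1 (abs_nonneg _) (by positivity)
      _ = _ := mul_one _
  have s4 : |(1 - g.u.re) * (piv q σ - g.v.im)| ≤ 4096 * q ^ 2 := by
    rw [abs_mul, abs_of_nonneg (by linarith only [hc1] : 0 ≤ 1 - g.u.re)]
    calc (1 - g.u.re) * |piv q σ - g.v.im| ≤ (4096 * q ^ 2) * 1 :=
          mul_le_mul (by linarith only [hc]) (w2.trans (by norm_num)) (abs_nonneg _) (by positivity)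
      _ = _ := mul_one _
  rw [abs_le] at s1 s2 s3 s4
  have b1 : |b.re - 20 / 32| ≤ 1 / 64 := by
    rw [hbre, abs_le]
    constructor <;> linarith only [hq1, hq2, hv1, s2, s3]
  have b3 : q ^ 3 < b.im := by
    rw [hbim]
    linarith only [q3p, hq2, hq3, hp1, hv2, s1, s4]
  have b4 : b.im < 1 / 2 := by
    rw [hbim]
    linarith only [hq1, hq2, hp2, hv2, s1, s4]
  have hb1 := abs_le.1 b1
  have hti := (lever_int hS1 hS3 h σ hz (by linarith only [hq1, hq2, hv1, hbre, s2, s3]) (by linarith only [hq1, hq2, hv1, hbre, s2, s3])).2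
  have h5 : (leverSh q σ).lo b.re ≤ q ^ 3 := by
    show max (max (cham q 0 b.re)
      (tents (q ^ 3) (if σ then [] else [(13 / 32, q + 2 * q ^ 3), (26 / 32, q + 2 * q ^ 3)]) b.re))
      (max (port q σ (10 / 32) b.re) (port q σ (30 / 32) b.re)) ≤ _
    rw [cham_zero (by linarith) (by linarith only [hq1, hq2, hq3, hv1, hbre, s2, s3])]
    apply max_le
    · apply max_le q3p.le
      apply lever_tents_le h σ
      · rw [abs_of_nonneg (by linarith)]
        linarith only [hq1, hq2, hv1, hbre, s2, s3]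
      · rw [abs_of_nonpos (by linarith only [hq1, hq2, hv1, hbre, s2, s3])]
        linarith only [hq1, hq2, hv1, hbre, s2, s3]
    · apply max_le
      · apply (port_far h σ (Or.inl rfl) _).trans q3p.le
        rw [abs_of_nonneg (by linarith only [hq1, hq2, hv1, hbre, s2, s3])]
        linarith only [hq1, hq2, hv1, hbre, s2, s3]
      · apply (port_far h σ (Or.inr rfl) _).trans q3p.le
        rw [abs_of_nonpos (by linarith only [hq1, hq2, hv1, hbre, s2, s3])]
        linarith only [hq1, hq2, hv1, hbre, s2, s3]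
  have h6 := hti (h5.trans_lt b3)
  have h7 : piv q σ + (1 - piv q σ) * |b.re - 20 / 32| / (2 * q ^ 3) ≤ b.im := by
    have h8 : min (1 - cham q 0 b.re)
        (piv q σ + (1 - piv q σ) * |b.re - 20 / 32| / (2 * q ^ 3)) ≤ b.im := h6
    rw [cham_zero (by linarith only [hq1, hq2, hq3, hv1, hbre, s2, s3]) (by linarith only [hq1, hq2, hq3, hv1, hbre, s2, s3])] at h8
    rcases min_le_iff.1 h8 with h9 | h9
    · linarith only [hq1, hq2, hp2, hv2, hbim, s1, s4, h9]
    · exact h9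
  rw [← hbre, ← hbim]
  have h10 : q * |b.re - 20 / 32| ≤ (1 - piv q σ) * |b.re - 20 / 32| / (2 * q ^ 3) := by
    rw [le_div_iff₀ (by positivity)]
    have h11 := abs_nonneg (b.re - 20 / 32)
    have h12 : q * (2 * q ^ 3) ≤ 1 - piv q σ := by nlinarith only [hq2, hq3, hp2]
    calc q * |b.re - 20 / 32| * (2 * q ^ 3) = q * (2 * q ^ 3) * |b.re - 20 / 32| := by ring
      _ ≤ _ := mul_le_mul_of_nonneg_right h12 h11
  linarith only [h7, h10]

theorem e3 (hS1 : S1Stmt) (hS2 : S2Stmt) (hS3 : S3Stmt) : E3Stmt := by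
  intro q Y₁ Y₂ σ g hq0 hq hY₁ hY₂ hu hv h1 h2 h3
  have h := qs hq0 hq
  have q0 := h.pos
  have hq1 := h.q1
  have hq2 := h.q2
  have hq3 := h.q3
  have q3p := h.q3p
  have q2p := h.q2p
  norm_num at hq1 hq2 hq3
  obtain ⟨p1, p1'⟩ := port_ineq hS1 hS2 hS3 h hY₁ hu hv (Or.inl rfl) h1
  obtain ⟨p2, p2'⟩ := port_ineq hS1 hS2 hS3 h hY₂ hu hv (Or.inr rfl) h2
  have p3 := spike_ineq hS1 hS2 hS3 h hu hv h3
  obtain ⟨hc, hs⟩ := near_coords hu
  have hsq := unit_sq g
  have hc1 := re_le_one g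
  have hs' := hs
  rw [abs_le] at hc hs hY₁ hY₂ p1' p2'
  norm_num at hc hs
  have hpiv : piv q σ = q - sg σ * q * (10 / 32) := rfl
  set τ : ℝ := sg σ * q with hτ
  have hτ2 : τ ^ 2 = q ^ 2 := by
    rw [hτ, mul_pow, sg_sq, one_mul]
  have hτa : |τ| = q := by
    rw [hτ, abs_mul, sg_abs, one_mul, abs_of_pos q0]
  have hτb := abs_le.1 hτa.le
  set c := g.u.re with hcd
  set s := g.u.im with hsd
  set v₁ := g.v.re with hv1d
  set v₂ := g.v.im with hv2d
  set a := c * (20 / 32 - v₁) + s * (piv q σ - v₂) - 20 / 32 with ha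
  set b := c * (piv q σ - v₂) - s * (20 / 32 - v₁) - piv q σ with hb
  -- the two rotated vectors
  set e₁ := τ * (10 / 32) + Y₁ with he1
  set e₂ := τ * (10 / 32) + Y₂ with he2
  have hqe1 : q + Y₁ = piv q σ + e₁ := by rw [hpiv, he1]; ring
  have hqe2 : q + Y₂ = piv q σ + e₂ := by rw [hpiv, he2]; ring
  have hta : |τ * a| ≤ b := by
    rw [abs_mul, hτa]
    exact p3
  rw [abs_le] at hta
  have hroof : ∀ x, roof q σ x = piv q σ + τ * |x - 20 / 32| := fun x => rfl
  -- first port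
  have x1 : c * (10 / 32 - v₁) + s * (q + Y₁ - v₂) - 20 / 32
      = a - (c * (10 / 32) - s * e₁) := by
    rw [hqe1, ha]
    ring
  have y1 : c * (q + Y₁ - v₂) - s * (10 / 32 - v₁) = piv q σ + b + (s * (10 / 32) + c * e₁) := by
    rw [hqe1, hb]
    ring
  have f1 : (s * (10 / 32) + c * e₁) - τ * (c * (10 / 32) - s * e₁) ≤ 0 := by
    rw [hroof, y1, x1] at p1
    rw [abs_of_nonpos (by linarith only [p1', x1])] at p1
    linarith only [p1, hta]
  -- second port
  have x2 : c * (30 / 32 - v₁) + s * (q + Y₂ - v₂) - 20 / 32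
      = a + (c * (10 / 32) + s * e₂) := by
    rw [hqe2, ha]
    ring
  have y2 : c * (q + Y₂ - v₂) - s * (30 / 32 - v₁) = piv q σ + b + (c * e₂ - s * (10 / 32)) := by
    rw [hqe2, hb]
    ring
  have f2 : (c * e₂ - s * (10 / 32)) - τ * (c * (10 / 32) + s * e₂) ≤ 0 := by
    rw [hroof, y2, x2] at p2
    rw [abs_of_nonneg (by linarith only [p2', x1])] at p2
    linarith only [p2, hta]
  have hE1 : |e₁| ≤ 1 / 100 := by
    rw [he1, abs_le]
    constructor <;> linarith only [hq, hY₁, hq2, hτb]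
  have hE2 : |e₂| ≤ 1 / 100 := by
    rw [he2, abs_le]
    constructor <;> linarith only [hq, hY₂, hq2, hτb]
  have hsa : |s| ≤ 1 / 100 := by
    rw [abs_le]
    constructor <;> linarith only [hq, hq2, hs]
  have se1 : |s * e₁| ≤ 1 / 100 := by
    rw [abs_mul]
    calc |s| * |e₁| ≤ 1 / 100 * 1 := mul_le_mul hsa (hE1.trans (by norm_num)) (abs_nonneg _) (by norm_num)
      _ = _ := by norm_num
  have se2 : |s * e₂| ≤ 1 / 100 := by
    rw [abs_mul]
    calc |s| * |e₂| ≤ 1 / 100 * 1 := mul_le_mul hsa (hE2.trans (by norm_num)) (abs_nonneg _) (by norm_num)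
      _ = _ := by norm_num
  have hτs : |τ| ≤ 1 / 100 := by rw [hτa]; linarith only [hq]
  have hca : |c| ≤ 1 := by
    rw [abs_le]
    constructor <;> linarith only [hq, hq2, hc, hc1]
  have hce1 : |c * e₁| ≤ 1 / 100 := by
    rw [abs_mul]
    exact (mul_le_of_le_one_left (abs_nonneg _) hca).trans hE1
  have hce2 : |c * e₂| ≤ 1 / 100 := by
    rw [abs_mul]
    exact (mul_le_of_le_one_left (abs_nonneg _) hca).trans hE2
  have hsa2 := abs_le.1 hsa
  have hce1' := abs_le.1 hce1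
  have hce2' := abs_le.1 hce2
  have g1' : |τ * (s * (10 / 32) + c * e₁)| ≤ 1 / 100 := by
    rw [abs_mul]
    have : |s * (10 / 32) + c * e₁| ≤ 1 := by
      rw [abs_le]
      constructor <;> linarith only [hq, hq2, hs, hce1']
    calc |τ| * |s * (10 / 32) + c * e₁| ≤ 1 / 100 * 1 := mul_le_mul hτs this (abs_nonneg _) (by norm_num)
      _ = _ := by norm_num
  have g2' : |τ * (c * e₂ - s * (10 / 32))| ≤ 1 / 100 := by
    rw [abs_mul]
    have : |c * e₂ - s * (10 / 32)| ≤ 1 := by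
      rw [abs_le]
      constructor <;> linarith only [hq, hq2, hs, hce2']
    calc |τ| * |c * e₂ - s * (10 / 32)| ≤ 1 / 100 * 1 := mul_le_mul hτs this (abs_nonneg _) (by norm_num)
      _ = _ := by norm_num
  rw [abs_le] at se1 se2 g1' g2'
  have r1 : 0 ≤ (c * (10 / 32) - s * e₁) + τ * (s * (10 / 32) + c * e₁) := by linarith only [hq, hq2, hc, se1, g1']
  have r2 : 0 ≤ (c * (10 / 32) + s * e₂) + τ * (c * e₂ - s * (10 / 32)) := by linarith only [hc1, p1', p2', se1, g2']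
  have m1 := mul_nonpos_of_nonneg_of_nonpos r1 f2
  have m2 := mul_nonpos_of_nonneg_of_nonpos r2 f1
  -- the imaginary part of the product
  have key : 10 / 32 * (1 + τ ^ 2) * (Y₁ + Y₂) + 2 * τ * (Y₁ * Y₂)
      = ((c * (10 / 32) - s * e₁) + τ * (s * (10 / 32) + c * e₁)) *
          ((c * e₂ - s * (10 / 32)) - τ * (c * (10 / 32) + s * e₂)) +
        ((c * (10 / 32) + s * e₂) + τ * (c * e₂ - s * (10 / 32))) *
          ((s * (10 / 32) + c * e₁) - τ * (c * (10 / 32) - s * e₁)) := by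
    have hfac : 10 / 32 * (1 + τ ^ 2) * (Y₁ + Y₂) + 2 * τ * (Y₁ * Y₂)
        = (c ^ 2 + s ^ 2) * (10 / 32 * (1 + τ ^ 2) * (Y₁ + Y₂) + 2 * τ * (Y₁ * Y₂)) := by
      rw [hsq, one_mul]
    rw [hfac, he1, he2]
    ring
  have e : 10 / 32 * (1 + q ^ 2) * (Y₁ + Y₂) + 2 * sg σ * q * (Y₁ * Y₂)
      = 10 / 32 * (1 + τ ^ 2) * (Y₁ + Y₂) + 2 * τ * (Y₁ * Y₂) := by
    rw [hτ2, hτ]
    ring
  rw [e, key]
  linarith only [m1, m2]

end Pool.Agent.Helper80_Pack
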