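import Pool.Agent.Helper2_Pack.Stmts3

/-! # Evaluation of the boundary functions of the shapes (helper80) -/

namespace Pool.Agent.Helper80_Pack

open Pool.Agent.Helper2_Pack

theorem le_tents (g : ℝ) (L : List (ℝ × ℝ)) (x : ℝ) : g ≤ tents g L x := by
  unfold tents
  induction L with
  | nil => exact le_rfl
  | cons d L ih => exact ih.trans (le_max_right _ _)

theorem mem_tents (g : ℝ) (L : List (ℝ × ℝ)) (x : ℝ) {d : ℝ × ℝ} (hd : d ∈ L) :
    d.2 - |x - d.1| ≤ tents g L x := by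
  unfold tents
  induction L with
  | nil => exact absurd hd (List.not_mem_nil)
  | cons e L ih =>
    rcases List.mem_cons.1 hd with h | h
    · subst h
      exact le_max_left _ _
    · exact (ih h).trans (le_max_right _ _)

theorem tents_le {g : ℝ} {L : List (ℝ × ℝ)} {x c : ℝ} (hg : g ≤ c)
    (h : ∀ d ∈ L, d.2 - |x - d.1| ≤ c) : tents g L x ≤ c := by
  unfold tents
  induction L with
  | nil => exact hg
  | cons e L ih =>
    exact max_le (h e (List.mem_cons_self ..)) (ih fun d hd => h d (List.mem_cons_of_mem _ hd))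

theorem cham_nonneg (q xl x : ℝ) : 0 ≤ cham q xl x := le_max_left _ _

theorem cham_zero {q xl x : ℝ} (h1 : xl + 8 * q ^ 3 ≤ x) (h2 : x ≤ 1 - 8 * q ^ 3) :
    cham q xl x = 0 := by
  unfold cham
  apply le_antisymm _ (le_max_left _ _)
  apply max_le le_rfl
  apply max_le
  · linarith
  · exact (min_le_right _ _).trans (by linarith)

theorem cham_le {q xl x : ℝ} (hq : 0 < q) (h1 : xl ≤ x) : cham q xl x ≤ 8 * q ^ 3 := by
  have : 0 < q ^ 3 := by positivity
  unfold cham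
  apply max_le (by positivity)
  apply max_le
  · linarith
  · exact min_le_left _ _

theorem marks_mem (a : Col) : ∀ p ∈ a.marks, 10 ≤ p ∧ p ≤ 29 ∧
    (p = 10 ∨ p = 14 ∨ p = 18 ∨ p = 26 ∨ p = 29) := by
  cases a <;> decide

theorem mem14 (a : Col) : 14 ∈ a.marks := by
  cases a <;> decide

/-- numerical facts on `q` -/
structure Qs (q : ℝ) : Prop where
  pos : 0 < q
  q1 : q ≤ 1 / 2 ^ 20
  q2 : q ^ 2 ≤ q / 2 ^ 20
  q3 : q ^ 3 ≤ q ^ 2 / 2 ^ 20
  q3p : 0 < q ^ 3
  q2p : 0 < q ^ 2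

theorem qs {q : ℝ} (h0 : 0 < q) (h1 : q ≤ 1 / 2 ^ 20) : Qs q where
  pos := h0
  q1 := h1
  q2 := by
    have : q * q ≤ q * (1 / 2 ^ 20) := mul_le_mul_of_nonneg_left h1 h0.le
    nlinarith
  q3 := by
    have h2 : 0 < q ^ 2 := by positivity
    have : q ^ 2 * q ≤ q ^ 2 * (1 / 2 ^ 20) := mul_le_mul_of_nonneg_left h1 h2.le
    nlinarith
  q3p := by positivity
  q2p := by positivity

theorem xl_le {q : ℝ} (h : Qs q) (t : Tile) : 0 ≤ t.xl q ∧ t.xl q ≤ q := by
  unfold Tile.xl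
  have := h.pos
  split_ifs <;> constructor <;> linarith

theorem xr_ge {q : ℝ} (h : Qs q) (t : Tile) : 1 ≤ t.xr q ∧ t.xr q ≤ 1 + q := by
  unfold Tile.xr
  have := h.pos
  split_ifs <;> constructor <;> linarith

theorem dents_height {q : ℝ} (h : Qs q) (t : Tile) : ∀ d ∈ t.dents q, d.2 ≤ q + 2 * q ^ 3 := by
  intro d hd
  unfold Tile.dents at hd
  obtain ⟨p, -, rfl⟩ := List.mem_map.1 hd
  have := h.q3p
  split_ifs <;> simp only <;> linarith

theorem base_le {q : ℝ} (h : Qs q) (t : Tile) : 0 ≤ t.base q ∧ t.base q ≤ q ^ 3 := by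
  unfold Tile.base
  have := h.q3p
  split_ifs <;> constructor <;> linarith

/-- the lower boundary of a tile is low -/
theorem lo_le {q : ℝ} (h : Qs q) (t : Tile) {x : ℝ} (hx : t.xl q ≤ x) :
    (t.sh q).lo x ≤ 1 / 4 := by
  have h1 := h.pos
  have h2 := h.q1
  have h3 := h.q2
  have h4 := h.q3
  have h5 := h.q3p
  have h6 := h.q2p
  show max (cham q (t.xl q) x) (tents (t.base q) (t.dents q) x) ≤ 1 / 4
  apply max_le
  · exact (cham_le h1 hx).trans (by norm_num at *; linarith)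
  · apply tents_le
    · exact (base_le h t).2.trans (by norm_num at *; linarith)
    · intro d hd
      have h7 := dents_height h t d hd
      have h8 := abs_nonneg (x - d.1)
      norm_num at h2 h3 h4
      linarith

/-- the upper boundary of a tile -/
theorem hi_ge {q : ℝ} (t : Tile) {x : ℝ} (hx : t.xl q + 8 * q ^ 3 ≤ x)
    (hx' : x ≤ 1 - 8 * q ^ 3) : 1 ≤ (t.sh q).hi x ∧ 1 + q - |x - 14 / 32| ≤ (t.sh q).hi x := by
  show 1 ≤ tents 1 (t.top.marks.map fun p : ℕ => ((p : ℝ) / 32, 1 + q)) x - cham q (t.xl q) x ∧ _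
    ≤ tents 1 (t.top.marks.map fun p : ℕ => ((p : ℝ) / 32, 1 + q)) x - cham q (t.xl q) x
  rw [cham_zero hx hx', sub_zero]
  refine ⟨le_tents _ _ _, ?_⟩
  have := mem_tents 1 (t.top.marks.map fun p : ℕ => ((p : ℝ) / 32, 1 + q)) x
    (d := ((14 : ℕ) / 32, 1 + q)) (List.mem_map.2 ⟨14, mem14 _, rfl⟩)
  simpa using this

/-- not in the interior of a tile -/
theorem tile_int (hS1 : S1Stmt) (hS3 : S3Stmt) {q : ℝ} (h : Qs q) (t : Tile) {z : ℂ}
    (hz : z ∉ interior ((Shp.tile t).reg q)) (h1 : q < z.re) (h2 : z.re < 1) :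
    (z.im < (t.sh q).hi z.re → z.im ≤ (t.sh q).lo z.re) ∧
    ((t.sh q).lo z.re < z.im → (t.sh q).hi z.re ≤ z.im) := by
  have hq : q ≤ 1 / 1000 := h.q1.trans (by norm_num)
  obtain ⟨hg, -, -⟩ := hS3 q (.tile t) h.pos hq
  have hi := (hS1 _ hg).1
  have e : (Shp.tile t).reg q = ((Shp.tile t).sh q).reg := rfl
  rw [e, hi] at hz
  have hz' : ¬ (t.xl q < z.re ∧ z.re < t.xr q ∧ (t.sh q).lo z.re < z.im ∧ z.im < (t.sh q).hi z.re) := hz
  have hl : t.xl q < z.re := (xl_le h t).2.trans_lt h1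
  have hr : z.re < t.xr q := h2.trans_le (xr_ge h t).1
  constructor
  · intro h3
    by_contra h4
    exact hz' ⟨hl, hr, not_le.1 h4, h3⟩
  · intro h3
    by_contra h4
    exact hz' ⟨hl, hr, h3, not_le.1 h4⟩

theorem img_int (hS2 : S2Stmt) {q : ℝ} (g : Motion) (s : Shp) {z : ℂ}
    (hz : z ∉ interior (img q g s)) :
    (starRingEnd ℂ g.u) * (z - g.v) ∉ interior (s.reg q) := by
  have h := hS2 g (s.reg q)
  unfold img at hz
  rw [h.1] at hz
  intro h2
  exact hz (((hS2 g (interior (s.reg q))).2.2.2.2 z).2 h2)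

/-- coordinates of a motion -/
theorem unit_sq (g : Motion) : g.u.re ^ 2 + g.u.im ^ 2 = 1 := by
  have h := g.unit
  have h2 : ‖g.u‖ ^ 2 = g.u.re ^ 2 + g.u.im ^ 2 := by
    rw [← Complex.normSq_eq_norm_sq, Complex.normSq_apply]
    ring
  rw [← h2, h, one_pow]

theorem near_coords {g : Motion} {e : ℝ} (h : ‖g.u - 1‖ ≤ e) :
    |g.u.re - 1| ≤ e ∧ |g.u.im| ≤ e := by
  constructor
  · have := (Complex.abs_re_le_norm (g.u - 1)).trans h
    simpa using this
  · have := (Complex.abs_im_le_norm (g.u - 1)).trans h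
    simpa using this

theorem re_le_one (g : Motion) : g.u.re ≤ 1 := by
  have := unit_sq g
  nlinarith [sq_nonneg g.u.im]

theorem conj_re (g : Motion) (w : ℂ) :
    ((starRingEnd ℂ g.u) * w).re = g.u.re * w.re + g.u.im * w.im := by
  simp [Complex.mul_re]

theorem conj_im (g : Motion) (w : ℂ) :
    ((starRingEnd ℂ g.u) * w).im = g.u.re * w.im - g.u.im * w.re := by
  simp [Complex.mul_im]
  ring

end Pool.Agent.Helper80_Pack
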