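import Pool.Agent.Helper80_Pack.Base

/-! # E1 and E2: adders and subtractors (helper80) -/

namespace Pool.Agent.Helper80_Pack

open Pool.Agent.Helper2_Pack

/-- the top of `T` below the flat part of the bottom of `t₂` at the abscissa `a` -/
theorem top_ineq (hS1 : S1Stmt) (hS3 : S3Stmt) {q Y₂ a : ℝ} {t t₂ : Tile}
    {g : Motion} (h : Qs q) (hY₂ : |Y₂| ≤ q ^ 2) (hu : ‖g.u - 1‖ ≤ q ^ 2) (hv : ‖g.v‖ ≤ q ^ 2)
    (ht₂ : t₂.sgn = 0) (ha : 1 / 8 ≤ a) (ha' : a ≤ 7 / 8)
    (hm : ∀ p ∈ t₂.bot.marks, 1 / 16 ≤ |a - (p : ℝ) / 32|)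
    (h3 : ∀ z ∈ img q g (.tile t), z - ⟨0, 1 + Y₂⟩ ∉ interior ((Shp.tile t₂).reg q)) :
    g.u.im * (a - g.v.re) + 1 + g.u.re * g.v.im ≤ g.u.re * (1 + Y₂) := by
  have q0 := h.pos
  have hq1 := h.q1
  have hq2 := h.q2
  have hq3 := h.q3
  have q3p := h.q3p
  have q2p := h.q2p
  norm_num at hq1 hq2 hq3
  obtain ⟨hc, hs⟩ := near_coords hu
  have hsq := unit_sq g
  have hc1 := re_le_one g
  have hv1 : |g.v.re| ≤ q ^ 2 := (Complex.abs_re_le_norm _).trans hv
  have hv2 : |g.v.im| ≤ q ^ 2 := (Complex.abs_im_le_norm _).trans hv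
  rw [abs_le] at hc hs hv1 hv2 hY₂
  set c := g.u.re with hcd
  set s := g.u.im with hsd
  set v₁ := g.v.re with hv1d
  set v₂ := g.v.im with hv2d
  have hc0 : 1 / 2 < c := by linarith only [hq1, hq2, hc]
  set X := (a + s - v₁) / c with hX
  have hXc : X * c = a + s - v₁ := by
    rw [hX]
    field_simp
  have hX1 : 1 / 16 ≤ X := by
    rw [hX, le_div_iff₀ (by linarith only [hq1, hq2, hc])]
    linarith only [ha, hq1, hq2, hc1, hs, hv1]
  have hX2 : X ≤ 15 / 16 := by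
    rw [hX, div_le_iff₀ (by linarith only [hq1, hq2, hc])]
    linarith only [ha', hq1, hq2, hc, hs, hv1]
  have hin : (⟨X, 1⟩ : ℂ) ∈ (Shp.tile t).reg q := by
    show t.xl q ≤ X ∧ X ≤ t.xr q ∧ (t.sh q).lo X ≤ 1 ∧ 1 ≤ (t.sh q).hi X
    refine ⟨(xl_le h t).2.trans (by linarith only [hq1, hX1]), le_trans (by linarith only [hX2]) (xr_ge h t).1, ?_, ?_⟩
    · exact (lo_le h t ((xl_le h t).2.trans (by linarith only [hq1, hX1]))).trans (by norm_num)
    · exact (hi_ge t (by linarith only [hq1, hq2, hq3, hX1, (xl_le h t).2]) (by linarith)).1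
  have hz := h3 (g.app ⟨X, 1⟩) ⟨_, hin, rfl⟩
  have hre : (g.app ⟨X, 1⟩ - ⟨0, 1 + Y₂⟩).re = a := by
    simp only [Motion.app, Complex.sub_re, Complex.add_re, Complex.mul_re, ← hcd, ← hsd, ← hv1d]
    linarith only [hXc]
  have him : (g.app ⟨X, 1⟩ - ⟨0, 1 + Y₂⟩).im = X * s + c + v₂ - (1 + Y₂) := by
    simp only [Motion.app, Complex.sub_im, Complex.add_im, Complex.mul_im, ← hcd, ← hsd, ← hv2d]
    ring
  have hti := (tile_int hS1 hS3 h t₂ hz (by rw [hre]; linarith only [ha, hq1]) (by rw [hre]; linarith only [ha'])).1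
  rw [hre, him] at hti
  have hlo : (t₂.sh q).lo a ≤ 0 := by
    show max (cham q (t₂.xl q) a) (tents (t₂.base q) (t₂.dents q) a) ≤ 0
    rw [cham_zero (by linarith only [ha, hq1, hq2, hq3, (xl_le h t₂).2]) (by linarith)]
    apply max_le le_rfl
    apply tents_le
    · unfold Tile.base
      rw [if_pos ht₂]
    · intro d hd
      unfold Tile.dents at hd
      obtain ⟨p, hp, rfl⟩ := List.mem_map.1 hd
      rw [if_pos ht₂]
      have := hm p hp
      simp only
      linarith only [hq1, hq2, hq3, this]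
  have hXs : |X * s| ≤ q ^ 2 := by
    rw [abs_mul, abs_of_nonneg (by linarith only [hX1] : 0 ≤ X)]
    calc X * |s| ≤ 1 * q ^ 2 := by
          apply mul_le_mul (by linarith only [hX2]) (abs_le.2 hs) (abs_nonneg _) zero_le_one
      _ = q ^ 2 := one_mul _
  rw [abs_le] at hXs
  have h4 : X * s + c + v₂ - (1 + Y₂) < (t₂.sh q).hi a := by
    have := (hi_ge (q := q) t₂ (x := a) (by linarith only [ha, hq1, hq2, hq3, (xl_le h t₂).2]) (by linarith only [ha', hq1, hq2, hq3])).1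
    linarith only [hY₂, hq1, hq2, hc1, hv2, hXs, this]
  have h5 := (hti h4).trans hlo
  have h6 : c * (X * s + c + v₂ - (1 + Y₂)) ≤ 0 := mul_nonpos_of_nonneg_of_nonpos (by linarith only [hq1, hq2, hc]) h5
  have h7 : c * (X * s) = s * (a + s - v₁) := by
    rw [← hXc]; ring
  linarith only [hsq, h6, h7]

theorem marks_dist_a1 (a : Col) : ∀ p ∈ a.marks, (1 : ℝ) / 16 ≤ |6 / 32 - (p : ℝ) / 32| := by
  intro p hp
  have h := (marks_mem a p hp).1
  have h' : (10 : ℝ) ≤ p := by exact_mod_cast h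
  rw [abs_of_nonpos (by linarith only [h'])]
  linarith

theorem marks_dist_a2 (a : Col) : ∀ p ∈ a.marks, (1 : ℝ) / 16 ≤ |22 / 32 - (p : ℝ) / 32| := by
  intro p hp
  rcases (marks_mem a p hp).2.2 with h | h | h | h | h <;> subst h <;> norm_num

/-- lower boundary of a device near the central dent -/
theorem lo_center {q : ℝ} (h : Qs q) (t : Tile) (ht : t.sgn = 1 ∨ t.sgn = -1) {x : ℝ}
    (hx : |x - 14 / 32| ≤ 1 / 64) :
    (t.sh q).lo x = max (q ^ 3) (q + q ^ 3 - |x - (14 / 32 + t.sgn * q ^ 3)|) := by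
  have q0 := h.pos
  have hq1 := h.q1
  have hq2 := h.q2
  have hq3 := h.q3
  have q3p := h.q3p
  norm_num at hq1 hq2 hq3
  have hs : t.sgn ≠ 0 := by rcases ht with h | h <;> rw [h] <;> norm_num
  rw [abs_le] at hx
  show max (cham q (t.xl q) x) (tents (t.base q) (t.dents q) x) = _
  rw [cham_zero (by linarith [(xl_le h t).2]) (by linarith)]
  have hb : t.base q = q ^ 3 := by
    unfold Tile.base
    rw [if_neg hs]
  apply le_antisymm
  · apply max_le
    · exact q3p.le.trans (le_max_left _ _)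
    · apply tents_le
      · rw [hb]
        exact le_max_left _ _
      · intro d hd
        unfold Tile.dents at hd
        obtain ⟨p, hp, rfl⟩ := List.mem_map.1 hd
        rw [if_neg hs]
        by_cases h14 : p = 14
        · rw [if_pos h14, h14]
          simp only [Nat.cast_ofNat]
          exact le_max_right _ _
        · rw [if_neg h14]
          simp only
          have hd : 1 / 32 ≤ |x - (p : ℝ) / 32| := by
            rcases (marks_mem _ p hp).2.2 with h | h | h | h | h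
            · subst h
              rw [abs_of_nonneg] <;> norm_num <;> linarith only [hx]
            · exact absurd h h14
            · subst h
              rw [abs_of_nonpos] <;> norm_num <;> linarith only [hx]
            · subst h
              rw [abs_of_nonpos] <;> norm_num <;> linarith only [hx]
            · subst h
              rw [abs_of_nonpos] <;> norm_num <;> linarith only [hx]
          exact le_trans (by linarith) (le_max_left _ _)
  · apply le_max_of_le_right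
    apply max_le
    · rw [← hb]
      exact le_tents _ _ _
    · have hd : ((14 : ℝ) / 32 + t.sgn * q ^ 3, q + q ^ 3) ∈ t.dents q := by
        unfold Tile.dents
        rw [List.mem_map]
        refine ⟨14, mem14 _, ?_⟩
        rw [if_neg hs, if_pos rfl]
        simp
      exact mem_tents _ _ _ hd

/-- the corner of the central dent stays above the bump of `t₀` -/
theorem corner_ineq (hS1 : S1Stmt) (hS3 : S3Stmt) {q Y₀ c1 : ℝ} {t₀ t : Tile} {g : Motion}
    (h : Qs q) (hY₀ : |Y₀| ≤ q ^ 2) (hu : ‖g.u - 1‖ ≤ q ^ 2) (hv : ‖g.v‖ ≤ q ^ 2)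
    (hc1 : |c1 - 14 / 32| ≤ q) (hlo : (t.sh q).lo c1 ≤ q ^ 3)
    (h2 : ∀ z ∈ img q g (.tile t), z - ⟨0, -1 + Y₀⟩ ∉ interior ((Shp.tile t₀).reg q)) :
    1 + q - |(g.app ⟨c1, q ^ 3⟩).re - 14 / 32| ≤ (g.app ⟨c1, q ^ 3⟩).im + 1 - Y₀ := by
  have q0 := h.pos
  have hq1 := h.q1
  have hq2 := h.q2
  have hq3 := h.q3
  have q3p := h.q3p
  have q2p := h.q2p
  norm_num at hq1 hq2 hq3
  obtain ⟨hc, hs⟩ := near_coords hu
  have hv1 : |g.v.re| ≤ q ^ 2 := (Complex.abs_re_le_norm _).trans hv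
  have hv2 : |g.v.im| ≤ q ^ 2 := (Complex.abs_im_le_norm _).trans hv
  rw [abs_le] at hc hs hv1 hv2 hY₀ hc1
  have hin : (⟨c1, q ^ 3⟩ : ℂ) ∈ (Shp.tile t).reg q := by
    show t.xl q ≤ c1 ∧ c1 ≤ t.xr q ∧ (t.sh q).lo c1 ≤ q ^ 3 ∧ q ^ 3 ≤ (t.sh q).hi c1
    refine ⟨(xl_le h t).2.trans (by linarith), le_trans (by linarith only [hc1, hq1]) (xr_ge h t).1, hlo, ?_⟩
    exact le_trans (by linarith) (hi_ge t (by linarith [(xl_le h t).2]) (by linarith)).1
  have hz := h2 (g.app ⟨c1, q ^ 3⟩) ⟨_, hin, rfl⟩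
  set w := g.app ⟨c1, q ^ 3⟩ with hw
  have hwre : w.re = g.u.re * c1 - g.u.im * q ^ 3 + g.v.re := by
    rw [hw]
    simp [Motion.app, Complex.mul_re]
  have hwim : w.im = g.u.re * q ^ 3 + g.u.im * c1 + g.v.im := by
    rw [hw]
    simp [Motion.app, Complex.mul_im]
  have hre : (w - ⟨0, -1 + Y₀⟩).re = w.re := by simp
  have him : (w - ⟨0, -1 + Y₀⟩).im = w.im + 1 - Y₀ := by
    simp only [Complex.sub_im]
    ring
  have b1 : 13 / 32 ≤ w.re := by rw [hwre]; nlinarith only [hc1, hq1, hq3, hc, hv1, q3p, hs]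
  have b2 : w.re ≤ 15 / 32 := by rw [hwre]; nlinarith only [hc1, hq1, hq3, hc, hv1, q3p, hs]
  have b3 : -(1 / 100) ≤ w.im := by rw [hwim]; nlinarith only [hq1, hq3, hs, hv2, hc1, q3p, hc]
  have hti := (tile_int hS1 hS3 h t₀ hz (by rw [hre]; linarith only [hq1, b1]) (by rw [hre]; linarith only [b2])).2
  rw [hre, him] at hti
  have h3 : (t₀.sh q).lo w.re < w.im + 1 - Y₀ := by
    have := lo_le h t₀ (x := w.re) ((xl_le h t₀).2.trans (by linarith only [hq1, b1]))
    linarith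
  have h4 := (hi_ge (q := q) t₀ (x := w.re) (by linarith [(xl_le h t₀).2]) (by linarith only [hq1, hq2, hq3, b2])).2
  exact h4.trans (hti h3)

/-- the apex of the bump of `t₀` stays below the central dent -/
theorem apex_ineq (hS1 : S1Stmt) (hS2 : S2Stmt) (hS3 : S3Stmt) {q Y₀ : ℝ} {t₀ t : Tile}
    {g : Motion} (h : Qs q) (hY₀ : |Y₀| ≤ q ^ 2) (hu : ‖g.u - 1‖ ≤ q ^ 2) (hv : ‖g.v‖ ≤ q ^ 2)
    (ht : t.sgn = 1 ∨ t.sgn = -1)
    (h1 : ∀ z ∈ (Shp.tile t₀).reg q, z + ⟨0, -1 + Y₀⟩ ∉ interior (img q g (.tile t))) :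
    g.u.re * (q + Y₀ - g.v.im) - g.u.im * (14 / 32 - g.v.re) ≤
      q + q ^ 3 - |g.u.re * (14 / 32 - g.v.re) + g.u.im * (q + Y₀ - g.v.im)
        - (14 / 32 + t.sgn * q ^ 3)| := by
  have q0 := h.pos
  have hq1 := h.q1
  have hq2 := h.q2
  have hq3 := h.q3
  have q3p := h.q3p
  have q2p := h.q2p
  norm_num at hq1 hq2 hq3
  obtain ⟨hc, hs⟩ := near_coords hu
  have hc1 := re_le_one g
  have hv1 : |g.v.re| ≤ q ^ 2 := (Complex.abs_re_le_norm _).trans hv
  have hv2 : |g.v.im| ≤ q ^ 2 := (Complex.abs_im_le_norm _).trans hv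
  rw [abs_le] at hc hs hv1 hv2 hY₀
  have hin : (⟨14 / 32, 1 + q⟩ : ℂ) ∈ (Shp.tile t₀).reg q := by
    show t₀.xl q ≤ 14 / 32 ∧ 14 / 32 ≤ t₀.xr q ∧ (t₀.sh q).lo (14 / 32) ≤ 1 + q ∧
      1 + q ≤ (t₀.sh q).hi (14 / 32)
    refine ⟨(xl_le h t₀).2.trans (by linarith only [hq1]), le_trans (by norm_num) (xr_ge h t₀).1, ?_, ?_⟩
    · exact (lo_le h t₀ ((xl_le h t₀).2.trans (by linarith only [hq1]))).trans (by linarith only [q3p, hq2, hq3])
    · have := (hi_ge (q := q) t₀ (x := 14 / 32) (by linarith [(xl_le h t₀).2]) (by linarith only [hq1, hq2, hq3])).2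
      simpa using this
  have hz := img_int hS2 g (.tile t) (h1 _ hin)
  set b := (starRingEnd ℂ g.u) * ((⟨14 / 32, 1 + q⟩ : ℂ) + ⟨0, -1 + Y₀⟩ - g.v) with hb
  have hbre : b.re = g.u.re * (14 / 32 - g.v.re) + g.u.im * (q + Y₀ - g.v.im) := by
    rw [hb, conj_re]
    simp only [Complex.sub_re, Complex.add_re, Complex.sub_im, Complex.add_im]
    ring
  have hbim : b.im = g.u.re * (q + Y₀ - g.v.im) - g.u.im * (14 / 32 - g.v.re) := by
    rw [hb, conj_im]
    simp only [Complex.sub_re, Complex.add_re, Complex.sub_im, Complex.add_im]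
    ring
  have b1 : |b.re - 14 / 32| ≤ 1 / 64 := by
    rw [hbre, abs_le]
    constructor <;> nlinarith only [hq1, hc, hv1, hY₀, hv2, hs, q0, q3p]
  have b3 : q ^ 3 < b.im := by
    rw [hbim]
    have e1 : q - 2 * q ^ 2 ≤ q + Y₀ - g.v.im := by linarith only [hY₀, hv2]
    have e2 : (1 - q ^ 2) * (q - 2 * q ^ 2) ≤ g.u.re * (q + Y₀ - g.v.im) := by
      apply mul_le_mul (by linarith only [hc]) e1 (by linarith only [q3p, hq2, hq3]) (by linarith only [hq1, hq2, hc])
    have e3 : g.u.im * (14 / 32 - g.v.re) ≤ q ^ 2 := by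
      calc g.u.im * (14 / 32 - g.v.re) ≤ |g.u.im * (14 / 32 - g.v.re)| := le_abs_self _
        _ = |g.u.im| * |14 / 32 - g.v.re| := abs_mul _ _
        _ ≤ q ^ 2 * 1 := by
            apply mul_le_mul (abs_le.2 hs) _ (abs_nonneg _) q2p.le
            rw [abs_le]
            constructor <;> linarith only [hq1, hq2, hv1]
        _ = q ^ 2 := mul_one _
    have e4 : q - 2 * q ^ 2 - q ^ 3 ≤ (1 - q ^ 2) * (q - 2 * q ^ 2) := by nlinarith
    linarith only [q3p, hq2, hq3, e2, e3, e4]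
  have b4 : b.im < 1 / 2 := by
    rw [hbim]
    nlinarith only [hY₀, hq1, hs, hv2, hv1, hc, q0, q3p]
  have hb1 := abs_le.1 b1
  have hti := (tile_int hS1 hS3 h t hz (by linarith only [hq1, hb1]) (by linarith only [hb1])).1
  have h3 : b.im < (t.sh q).hi b.re := by
    have := (hi_ge (q := q) t (x := b.re) (by linarith only [hq1, hq2, hq3, hb1, (xl_le h t).2]) (by linarith only [hq1, hq2, hq3, hb1])).1
    linarith only [b4, this]
  have h4 := hti h3
  rw [lo_center h t ht b1] at h4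
  rcases le_max_iff.1 h4 with h5 | h5
  · exact absurd b3 (not_lt.2 h5)
  · rw [← hbim, ← hbre]
    exact h5

theorem e1 (hS1 : S1Stmt) (hS2 : S2Stmt) (hS3 : S3Stmt) : E1Stmt := by
  intro q Y₀ Y₂ t₀ t t₂ g hq0 hq hY₀ hY₂ hu hv ht ht₂ h1 h2 h3
  have h := qs hq0 hq
  have I := top_ineq (a := 6 / 32) hS1 hS3 h hY₂ hu hv ht₂ (by norm_num) (by norm_num)
    (marks_dist_a1 _) h3
  have q0 := h.pos
  have hq1 := h.q1
  have hq2 := h.q2
  have hq3 := h.q3
  have q3p := h.q3p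
  have q2p := h.q2p
  norm_num at hq1 hq2 hq3
  have hcorner := corner_ineq (c1 := 14 / 32 - q + q ^ 3) (t := t) hS1 hS3 h hY₀ hu hv (by
    rw [abs_le]
    constructor <;> linarith only [q3p, hq2, hq3]) (by
    rw [lo_center h t (Or.inl ht), ht]
    · apply max_le le_rfl
      have e : 14 / 32 - q + q ^ 3 - (14 / 32 + ((1 : ℤ) : ℝ) * q ^ 3) = -q := by
        push_cast
        ring
      rw [e, abs_neg, abs_of_pos h.pos]
      linarith
    · rw [abs_le]
      constructor <;> linarith only [hq, q3p, hq2, hq3]) h2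
  have hapex := apex_ineq hS1 hS2 hS3 h hY₀ hu hv (Or.inl ht) h1
  rw [ht] at hapex
  obtain ⟨hc, hs⟩ := near_coords hu
  have hsq := unit_sq g
  have hc1 := re_le_one g
  have hv1 : |g.v.re| ≤ q ^ 2 := (Complex.abs_re_le_norm _).trans hv
  have hv2 : |g.v.im| ≤ q ^ 2 := (Complex.abs_im_le_norm _).trans hv
  rw [abs_le] at hc hs hv1 hv2 hY₀ hY₂
  have hwre : (g.app ⟨14 / 32 - q + q ^ 3, q ^ 3⟩).re
      = g.u.re * (14 / 32 - q + q ^ 3) - g.u.im * q ^ 3 + g.v.re := by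
    simp [Motion.app, Complex.mul_re]
  have hwim : (g.app ⟨14 / 32 - q + q ^ 3, q ^ 3⟩).im
      = g.u.re * q ^ 3 + g.u.im * (14 / 32 - q + q ^ 3) + g.v.im := by
    simp [Motion.app, Complex.mul_im]
  rw [hwre, hwim] at hcorner
  unfold hx
  rw [conj_re]
  set c := g.u.re with hcd
  set s := g.u.im with hsd
  set v₁ := g.v.re with hv1d
  set v₂ := g.v.im with hv2d
  have hc0 : 1 / 2 < c := by linarith only [hq, hq2, hc]
  have key : 0 ≤ c * (v₂ - v₁) - c * Y₀ + s * (14 / 32 - v₁ - v₂) + (1 - q) * (1 - c) := by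
    rcases le_total 0 s with h0 | h0
    · -- the corner of the dent
      have h6 : q + (c * (14 / 32 - q + q ^ 3) - s * q ^ 3 + v₁ - 14 / 32)
          ≤ c * q ^ 3 + s * (14 / 32 - q + q ^ 3) + v₂ - Y₀ := by
        have h7 : c * (14 / 32 - q + q ^ 3) - s * q ^ 3 + v₁ - 14 / 32 ≤ 0 := by
          have := mul_le_of_le_one_left (by linarith only [hq, q3p] : 0 ≤ 14 / 32 - q + q ^ 3) hc1
          have := mul_nonneg h0 q3p.le
          linarith
        rw [abs_of_nonpos h7] at hcorner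
        linarith only [hcorner]
      have h8 : (14 / 32 - q) * (c - 1) - (14 / 32 - q + 2 * q ^ 3) * s ≤ v₂ - v₁ - Y₀ := by
        linarith only [h6]
      have h9 := mul_le_mul_of_nonneg_left h8 (by linarith only [hq, hq2, hc] : 0 ≤ c)
      have h10 : 0 ≤ (1 - c) * ((1 - q) - c * (14 / 32 - q)) := by
        apply mul_nonneg (by linarith only [hc1])
        have := mul_le_of_le_one_left (by linarith only [hq] : 0 ≤ 14 / 32 - q) hc1
        linarith only [this]
      have h11 : 0 ≤ s * ((14 / 32 - v₁ - v₂) - c * (14 / 32 - q + 2 * q ^ 3)) := by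
        apply mul_nonneg h0
        have := mul_le_of_le_one_left (by linarith only [hq, q3p] : 0 ≤ 14 / 32 - q + 2 * q ^ 3) hc1
        linarith only [hq2, hq3, hv1, hv2, this]
      linarith only [h9, h10, h11]
    · have h6 : |c * (14 / 32 - v₁) + s * (q + Y₀ - v₂) - (14 / 32 + ((1 : ℤ) : ℝ) * q ^ 3)|
          ≥ -(c * (14 / 32 - v₁) + s * (q + Y₀ - v₂) - (14 / 32 + ((1 : ℤ) : ℝ) * q ^ 3)) :=
        neg_le_abs _
      push_cast at h6 hapex
      have h7 : (14 / 32 - q) * (1 - c) - s * (q + Y₀)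
          ≤ c * (v₂ - v₁) - c * Y₀ + s * (14 / 32 - v₁ - v₂) := by
        linarith only [h6, hapex]
      have h8 : 0 ≤ -s * (q + Y₀) := mul_nonneg (by linarith only [h0]) (by linarith only [hY₀, hq2])
      have h9 : 0 ≤ (1 - c) * (1 + 14 / 32 - 2 * q) := mul_nonneg (by linarith only [hc1]) (by linarith only [hq])
      linarith only [h7, h8, h9]
  have hcx : c * ((q + (c * v₁ + s * v₂) - 1 / 4 * s) / c) = q + (c * v₁ + s * v₂) - 1 / 4 * s := by
    field_simp
  have hfin : c * (Y₀ + ((q + (c * v₁ + s * v₂) - 1 / 4 * s) / c - q)) ≤ c * Y₂ := by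
    have e : c * (Y₀ + ((q + (c * v₁ + s * v₂) - 1 / 4 * s) / c - q))
        = c * Y₀ + c * ((q + (c * v₁ + s * v₂) - 1 / 4 * s) / c) - c * q := by
      ring
    rw [e, hcx]
    linarith only [key, I]
  exact le_of_mul_le_mul_left hfin (by linarith only [hq, hq2, hc])

theorem e2 (hS1 : S1Stmt) (hS2 : S2Stmt) (hS3 : S3Stmt) : E2Stmt := by
  intro q Y₀ Y₂ t₀ t t₂ g hq0 hq hY₀ hY₂ hu hv ht ht₂ h1 h2 h3
  have h := qs hq0 hq
  have I := top_ineq (a := 22 / 32) hS1 hS3 h hY₂ hu hv ht₂ (by norm_num) (by norm_num)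
    (marks_dist_a2 _) h3
  have q0 := h.pos
  have hq1 := h.q1
  have hq2 := h.q2
  have hq3 := h.q3
  have q3p := h.q3p
  have q2p := h.q2p
  norm_num at hq1 hq2 hq3
  have hcorner := corner_ineq (c1 := 14 / 32 + q - q ^ 3) (t := t) hS1 hS3 h hY₀ hu hv (by
    rw [abs_le]
    constructor <;> linarith only [q3p, hq2, hq3]) (by
    rw [lo_center h t (Or.inr ht), ht]
    · apply max_le le_rfl
      have e : 14 / 32 + q - q ^ 3 - (14 / 32 + ((-1 : ℤ) : ℝ) * q ^ 3) = q := by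
        push_cast
        ring
      rw [e, abs_of_pos h.pos]
      linarith
    · rw [abs_le]
      constructor <;> linarith only [q3p, hq2, hq3, hq]) h2
  have hapex := apex_ineq hS1 hS2 hS3 h hY₀ hu hv (Or.inr ht) h1
  rw [ht] at hapex
  obtain ⟨hc, hs⟩ := near_coords hu
  have hsq := unit_sq g
  have hc1 := re_le_one g
  have hv1 : |g.v.re| ≤ q ^ 2 := (Complex.abs_re_le_norm _).trans hv
  have hv2 : |g.v.im| ≤ q ^ 2 := (Complex.abs_im_le_norm _).trans hv
  rw [abs_le] at hc hs hv1 hv2 hY₀ hY₂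
  have hwre : (g.app ⟨14 / 32 + q - q ^ 3, q ^ 3⟩).re
      = g.u.re * (14 / 32 + q - q ^ 3) - g.u.im * q ^ 3 + g.v.re := by
    simp [Motion.app, Complex.mul_re]
  have hwim : (g.app ⟨14 / 32 + q - q ^ 3, q ^ 3⟩).im
      = g.u.re * q ^ 3 + g.u.im * (14 / 32 + q - q ^ 3) + g.v.im := by
    simp [Motion.app, Complex.mul_im]
  rw [hwre, hwim] at hcorner
  unfold hx
  rw [conj_re]
  set c := g.u.re with hcd
  set s := g.u.im with hsd
  set v₁ := g.v.re with hv1d
  set v₂ := g.v.im with hv2d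
  have hc0 : 1 / 2 < c := by linarith only [hq, hq2, hc]
  have key : 0 ≤ c * (v₁ + v₂) - c * Y₀ + s * (14 / 32 - v₁ + v₂) + 2 * (1 - c) := by
    rcases le_total s 0 with h0 | h0
    · have h6 : 14 / 32 + q + Y₀ ≤ (c * (14 / 32 + q - q ^ 3) - s * q ^ 3 + v₁)
          + (c * q ^ 3 + s * (14 / 32 + q - q ^ 3) + v₂) := by
        have h7 : 0 ≤ c * (14 / 32 + q - q ^ 3) - s * q ^ 3 + v₁ - 14 / 32 := by
          have h12 : (1 - q ^ 2) * (14 / 32 + q - q ^ 3) ≤ c * (14 / 32 + q - q ^ 3) :=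
            mul_le_mul_of_nonneg_right (by linarith only [hc]) (by linarith only [q3p, hq2, hq3])
          have h13 : q ^ 2 * (14 / 32 + q - q ^ 3) ≤ q ^ 2 * 1 :=
            mul_le_mul_of_nonneg_left (by linarith only [hq, q3p]) q2p.le
          have h14 : s * q ^ 3 ≤ 0 := mul_nonpos_of_nonpos_of_nonneg h0 q3p.le
          linarith only [hq2, hq3, hv1, h12, h13, h14]
        rw [abs_of_nonneg h7] at hcorner
        linarith only [hcorner]
      have h8 : (14 / 32 + q) * (1 - c) - (14 / 32 + q - 2 * q ^ 3) * s ≤ v₁ + v₂ - Y₀ := by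
        linarith only [h6]
      have h9 := mul_le_mul_of_nonneg_left h8 (by linarith only [hq, hq2, hc] : 0 ≤ c)
      have h10 : 0 ≤ (1 - c) * (2 + c * (14 / 32 + q)) := by
        apply mul_nonneg (by linarith only [hc1])
        have := mul_nonneg (by linarith only [hq, hq2, hc] : 0 ≤ c) (by linarith only [q3p, hq2, hq3] : 0 ≤ 14 / 32 + q)
        linarith only [this]
      have h11 : 0 ≤ (-s) * (c * (14 / 32 + q - 2 * q ^ 3) - (14 / 32 - v₁ + v₂)) := by
        apply mul_nonneg (by linarith only [h0])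
        have h12 : (1 - q ^ 2) * (14 / 32 + q - 2 * q ^ 3) ≤ c * (14 / 32 + q - 2 * q ^ 3) :=
          mul_le_mul_of_nonneg_right (by linarith only [hc]) (by linarith only [q3p, hq2, hq3])
        have h13 : q ^ 2 * (14 / 32 + q - 2 * q ^ 3) ≤ q ^ 2 * 1 :=
          mul_le_mul_of_nonneg_left (by linarith only [hq, q3p]) q2p.le
        linarith only [hq2, hq3, hv1, hv2, h12, h13]
      linarith only [h9, h10, h11]
    · have h6 : |c * (14 / 32 - v₁) + s * (q + Y₀ - v₂) - (14 / 32 + ((-1 : ℤ) : ℝ) * q ^ 3)|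
          ≥ (c * (14 / 32 - v₁) + s * (q + Y₀ - v₂) - (14 / 32 + ((-1 : ℤ) : ℝ) * q ^ 3)) :=
        le_abs_self _
      push_cast at h6 hapex
      have h7 : -(14 / 32 + q) * (1 - c) + s * (q + Y₀)
          ≤ c * (v₁ + v₂) - c * Y₀ + s * (14 / 32 - v₁ + v₂) := by
        linarith only [h6, hapex]
      have h8 : 0 ≤ s * (q + Y₀) := mul_nonneg h0 (by linarith only [hY₀, hq2])
      have h9 : 0 ≤ (1 - c) * (2 - 14 / 32 - q) := mul_nonneg (by linarith only [hc1]) (by linarith only [hq])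
      linarith only [h7, h8, h9]
  have hcx : c * ((1 + (c * v₁ + s * v₂) - 1 / 4 * s) / c) = 1 + (c * v₁ + s * v₂) - 1 / 4 * s := by
    field_simp
  have hfin : c * (Y₀ - ((1 + (c * v₁ + s * v₂) - 1 / 4 * s) / c - 1)) ≤ c * Y₂ := by
    have e : c * (Y₀ - ((1 + (c * v₁ + s * v₂) - 1 / 4 * s) / c - 1))
        = c * Y₀ - c * ((1 + (c * v₁ + s * v₂) - 1 / 4 * s) / c) + c := by
      ring
    rw [e, hcx]
    linarith only [key, I]
  exact le_of_mul_le_mul_left hfin (by linarith only [hq, hq2, hc])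

end Pool.Agent.Helper80_Pack
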